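import Pool.Agent.H84.TriFree

namespace Pool.Agent.Results.MP_670a4f_lc.Luzin

open Set Pool.Agent.H84.TriFree

theorem result
    (h : Cardinal.continuum.{0} = Cardinal.aleph 1 ∨
      ∃ A : Set (ℕ → Bool), ¬ A.Countable ∧
        ∀ K : Set (ℕ → Bool), IsClosed K → IsMeagre K → coin K = 0 → (A ∩ K).Countable) :
    ∃ c : Sym2 W → ℕ,
      (∀ a b d : W, a ≠ b → b ≠ d → a ≠ d → ¬ (c s(a, b) = c s(b, d) ∧ c s(b, d) = c s(a, d))) ∧
      ∀ X : Set W, ¬ X.Countable →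
        {n : ℕ | ¬ ∃ a ∈ X, ∃ b ∈ X, a ≠ b ∧ c s(a, b) = n}.Finite := by
  rcases h with ch | ⟨A, hA, h⟩
  · obtain ⟨A, hA, h⟩ := of_ch ch
    exact colour hA h
  · exact colour hA fun p hp => h _ (M_closed p) (M_meagre p hp) (M_null p hp)

end Pool.Agent.Results.MP_670a4f_lc.Luzin
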